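import Pool.Agent.Helper53.CX.Defs2

/-!
# Rational varieties with a torus action of complexity one (project CO, MP_140278_ag)

Function field `C(x_0,...,x_k)`, dimension `n = k + 1`; the torus of dimension `k` acts on
`x_1,...,x_k`, the quotient is the projective line with coordinate `x_0`.  Everything else
(divisorial valuations, generalized pairs, class group) is taken from project CX.
-/

open scoped BigOperators
open MvPolynomial

namespace Pool.Agent.Helper83.CO

open Pool.Agent.Helper53.CX

/-- the coordinates `t_s, x_1, ..., x_k`, where `t_s` is the local coordinate of the projective line at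
the point `s`: `1 / x_0` for `s = ∞` (`none`), `x_0 - p` for `s = p` -/
noncomputable def ys {k : ℕ} (s : Option ℂ) : Fin (k + 1) → Kn (k + 1) :=
  Fin.cons (match s with
    | none => (x 0)⁻¹
    | some p => x 0 - algebraMap ℂ (Kn (k + 1)) p) (fun j => x j.succ)

/-- the critical points: `∞`, `0` and the points of `P` -/
noncomputable def crit (P : Finset ℂ) : Finset (Option ℂ) := insert none (insert (some 0) (P.image some))

/-- The invariant prime divisors of a complete rational variety with a torus action of complexity one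
which is not toric.  The pair `(s, a)` is the prime divisor of the monomial valuation with
weights `a` in the coordinates `t_s, x_1, ..., x_k`; it lies over the point `s` with multiplicity `a_0`
if `a_0 > 0`, otherwise it is horizontal.  `two`: the fibres over the critical points are reducible or
multiple.  `complete`: the vectors `(a_0 e_s, a_1, ..., a_k)` and `- (1,...,1,0,...,0)` generate the
vector space as a cone. -/
structure IsC1 {k : ℕ} (P : Finset ℂ) (D : Finset (Option ℂ × (Fin (k + 1) → ℤ))) : Prop where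
  zero : (0 : ℂ) ∉ P
  nonempty : P.Nonempty
  mem : ∀ e ∈ D, e.1 ∈ crit P ∧ 0 ≤ e.2 0 ∧ (e.2 0 = 0 → e.1 = none)
  prim : ∀ e ∈ D, ∃ u : Fin (k + 1) → ℤ, ∑ j, e.2 j * u j = 1
  two : ∀ s ∈ crit P, 2 ≤ ∑ e ∈ D.filter (fun e => e.1 = s), e.2 0
  complete : ∀ (b : Option ℂ → ℤ) (β : Fin k → ℤ),
    ∃ (N t : ℕ) (c : Option ℂ × (Fin (k + 1) → ℤ) → ℕ), 1 ≤ N ∧
      (∀ s ∈ crit P, (N : ℤ) * b s + t = ∑ e ∈ D.filter (fun e => e.1 = s), (c e : ℤ) * e.2 0) ∧
      ∀ j, (N : ℤ) * β j = ∑ e ∈ D, (c e : ℤ) * e.2 j.succ

/-- `v` is a prime divisor of this variety: an invariant one, or a prime divisor of the open set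
`{x_0 ≠ 0, p (p ∈ P)}` of the torus -/
def IsC1Prime {k : ℕ} (P : Finset ℂ) (D : Finset (Option ℂ × (Fin (k + 1) → ℤ)))
    (v : DivVal (Kn (k + 1))) : Prop :=
  (∃ e ∈ D, IsToricIn (ys e.1) v e.2) ∨
    ∃ Q : Pn (k + 1), TorusPrime Q ∧ (∀ p ∈ P, ¬ Associated Q (X 0 - C p)) ∧ IsPAdic v Q

end Pool.Agent.Helper83.CO
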