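import Pool.Agent.Helper53.CX.AuxD2
import Pool.Agent.Helper83.CO.Defs

/-!
Auxiliary definitions used in the proofs only (project CO, MP_140278_ag).
-/

open scoped BigOperators
open MvPolynomial

namespace Pool.Agent.Helper83.CO

open Pool.Agent.Helper53.CX

/-- a polynomial in `x_0, ..., x_k` as a polynomial in `x_1, ..., x_k` with coefficients in `C[x_0]` -/
noncomputable def Phi (k : ℕ) : Pn (k + 1) →ₐ[ℂ] MvPolynomial (Fin k) (Polynomial ℂ) :=
  MvPolynomial.aeval (Fin.cons (MvPolynomial.C Polynomial.X) (fun j => MvPolynomial.X j))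

/-- order of a polynomial in one variable at the point `s` of the projective line -/
noncomputable def zs (s : Option ℂ) (c : Polynomial ℂ) : ℤ :=
  match s with
  | none => - (c.natDegree : ℤ)
  | some p => (c.rootMultiplicity p : ℤ)

/-- the pairing `a_0 m + ∑ a_j α_j` -/
def pr {k : ℕ} (a : Fin (k + 1) → ℤ) (m : ℤ) (α : Fin k → ℤ) : ℤ := a 0 * m + ∑ j, a j.succ * α j

/-- the same with real entries -/
noncomputable def prR {k : ℕ} (a : Fin (k + 1) → ℤ) (m : ℝ) (α : Fin k → ℝ) : ℝ :=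
  (a 0 : ℝ) * m + ∑ j, (a j.succ : ℝ) * α j

/-- `v` is the monomial valuation with weights `a` at the point `s`: for `f = ∑ c_m(x_0) x^m`,
`v(f) = min_m (a_0 ord_s(c_m) + ∑ a_j m_j)` -/
def IsVal {k : ℕ} (v : DivVal (Kn (k + 1))) (s : Option ℂ) (a : Fin (k + 1) → ℤ) : Prop :=
  ∀ f : Pn (k + 1), f ≠ 0 →
    (∀ m ∈ (Phi k f).support, v.ord (algebraMap (Pn (k + 1)) (Kn (k + 1)) f) ≤
      pr a (zs s ((Phi k f).coeff m)) (fun j => (m j : ℤ))) ∧
    ∃ m ∈ (Phi k f).support, v.ord (algebraMap (Pn (k + 1)) (Kn (k + 1)) f) =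
      pr a (zs s ((Phi k f).coeff m)) (fun j => (m j : ℤ))

/-- order of `x_0` at the point `s` -/
noncomputable def eps (s : Option ℂ) : ℤ := zs s Polynomial.X

/-- `T` is the set of the terms of the Laurent polynomial `f = ∑ c_m(x_0) x^m`: the pairs `(ord_s(c_m))_s, m`.
The sum of the `ord_s(c_m)` over the critical points is at most `0`. -/
def HasTerms {k : ℕ} (P : Finset ℂ) (f : Kn (k + 1)) (T : Finset ((Option ℂ → ℤ) × (Fin k → ℤ))) : Prop :=
  (∀ t ∈ T, ∑ s ∈ crit P, t.1 s ≤ 0) ∧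
  ∀ (s : Option ℂ) (a : Fin (k + 1) → ℤ) (v : DivVal (Kn (k + 1))), 0 ≤ a 0 → IsVal v s a →
    (∀ t ∈ T, v.ord f ≤ pr a (t.1 s) t.2) ∧ ∃ t ∈ T, v.ord f = pr a (t.1 s) t.2

/-- Integral lift.  `vd e` is the valuation of the invariant prime divisor `e`, `v'` a further invariant
valuation, over the point `s₀` with weights `w`.  `la e` (`e ∈ D`) is the value of the lift at
the divisor `e`, `d` its value at a general fibre; the lift restricts to `κ v'` on rational functions. -/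
structure Adm {k : ℕ} (P : Finset ℂ) (D : Finset (Option ℂ × (Fin (k + 1) → ℤ))) where
  vd : Option ℂ × (Fin (k + 1) → ℤ) → DivVal (Kn (k + 1))
  la : Option ℂ × (Fin (k + 1) → ℤ) → ℕ
  d : ℕ
  κ : ℕ
  s₀ : Option ℂ
  w : Fin (k + 1) → ℤ
  v' : DivVal (Kn (k + 1))
  hvd : ∀ e ∈ D, IsVal (vd e) e.1 e.2
  hv' : IsVal v' s₀ w
  hs : s₀ ∈ crit P
  hw : 0 ≤ w 0
  hu : ∃ u : Fin (k + 1) → ℤ, ∑ j, w j * u j = 1
  hla : ∀ e ∈ D, 1 ≤ la e
  hd : 1 ≤ d
  base : ∀ s ∈ crit P, ∑ e ∈ D.filter (fun e => e.1 = s), (la e : ℤ) * e.2 0 =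
    d + if s = s₀ then κ * w 0 else 0
  tor : ∀ j : Fin k, ∑ e ∈ D, (la e : ℤ) * e.2 j.succ = κ * w j.succ

/-- the value of the lift at the divisor `φ` minus the value of `κ v'` -/
def Adm.Lam {k : ℕ} {P : Finset ℂ} {D : Finset (Option ℂ × (Fin (k + 1) → ℤ))} (A : Adm P D)
    (φ : DivVal (Kn (k + 1)) → ℤ) : ℤ := ∑ e ∈ D, (A.la e : ℤ) * φ (A.vd e) - A.κ * φ A.v'

end Pool.Agent.Helper83.CO
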