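import Pool.Agent.Helper53.CX.St2
import Pool.Agent.Helper83.CO.AuxC

/-!
# Project CO (MP_140278_ag): complexity one, statements with complete proofs

THEOREM.  Let `(X,B,M)` be a generalized log Calabi-Yau pair (`M = ∑ b_i M_i`, `M_i` nef Cartier b-divisors,
not principal) on a normal projective variety of dimension `n = k + 1` with function field
`C(x_0..x_k)`, and let `X0` be a complete rational variety with a torus action of complexity one and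
`|P| + 2 ≥ 3` critical points, such that every prime divisor of `X0` is a prime divisor of `X` or a glc
place of `(X,B,M)`.  Then `∑ a_i + ∑ b_i + |P| ≤ n + rank Cl(X)`.

All modules are independent: every module proves `theorem hX : StDep1 → ... → StX`.  `K = Kn (k+1)`,
`alg f` = image of the polynomial `f` in `K`.  `f = ∑_m c_m(x_0) x^m` (`m` exponent in `x_1..x_k`) means
`c_m = (Phi k f).coeff m`.  For `e = (s,a) ∈ D` and `t = (z,α)` put `φ_e(t) = pr a (z s) α = a_0 z_s + ∑ a_j α_j`,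
`σ(t) = ∑_(s ∈ crit P) z_s`, and `Λ = A.Lam`.  All facts about divisorial valuations: see
`Pool.Agent.Helper53.CX.M_Sum` (order of products, powers, constants, monomials, `Sum_prim`).
-/

open scoped BigOperators
open MvPolynomial

namespace Pool.Agent.Helper83.CO

open Pool.Agent.Helper53.CX

/-! ## The valuations -/

/-- MODULE PHI (60-100 lines).  Coefficients of `Phi`.
Proof.  First claim: both sides are linear in `f`, check it on monomials: `Phi (X_0^j X^μ) = C (X^j) X^μ`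
(`Finsupp.cons`, `Fin.prod_univ_succ`).  Second: follows (every exponent is `Finsupp.cons i m`).
Third: `wt` of `Finsupp.cons i m`, `Fin.sum_univ_succ`.  Fourth: product formula for the linear factors and
`Phi (X_j) = X_j`. -/
def StPHI : Prop := ∀ (k : ℕ),
  (∀ (f : Pn (k + 1)) (m : Fin k →₀ ℕ) (i : ℕ),
    ((Phi k f).coeff m).coeff i = f.coeff (Finsupp.cons i m)) ∧
  (∀ f : Pn (k + 1), f ≠ 0 → Phi k f ≠ 0 ∧ (Phi k f).support.Nonempty) ∧
  (∀ (a : Fin (k + 1) → ℤ) (i : ℕ) (m : Fin k →₀ ℕ),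
    wt a (Finsupp.cons i m) = a 0 * i + ∑ j, a j.succ * (m j : ℤ)) ∧
  (∀ (p : ℂ), Phi k (X 0 - C p) = C (Polynomial.X - Polynomial.C p)) ∧
  (∀ j : Fin k, Phi k (X j.succ) = X j)

/-- MODULE EX (200-320 lines).  The monomial valuation at the point `s` exists.
Proof.  Case `s = some p`.  `y = ys (some p) = (x_0 - p, x_1, ..)` generates `K` (`x_0 = y_0 + p`), so StTau
gives an automorphism `τ` with `τ x_j = y_j`.  Let `v_a` be the toric valuation (StTorV),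
`v = pull τ.symm v_a`, so `v(τ g) = v_a(g) = monOrd a g`.  For a polynomial `q`: `aeval y q = τ (alg q)`, so
`v(aeval y q) = monO a q = min wt a`: this is `IsToricIn y v a`.  For a polynomial `f` let
`q = aeval (X_0 + p, X_1, ..) f`, a polynomial with `aeval y q = alg f`.  If `f = ∑ c_m(x_0) x^m` then
`q = ∑ c_m(x_0 + p) x^m` (`Phi q` is obtained from `Phi f` by the substitution `X ↦ X + p`
in the coefficients: `Polynomial.taylor p`).  By StPHI the monomials of `q` are `(i,m)` with `i` in the support of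
`c_m(X + p)`, the smallest such `i` is `rootMultiplicity p c_m` (`Polynomial.rootMultiplicity_eq_natTrailingDegree`),
and `a_0 ≥ 0`: so the minimum of `wt a` over the monomials of `q` is `min_m pr a (zs s c_m) m`.
Case `s = none`.  Let `b = (-a_0, a_1, ..)` (also primitive), `v` the toric valuation of weights `b`.  `IsVal`: `v(f)` is the
minimum of `-a_0 i + ∑ a_j m_j` over the monomials `(i,m)` of `f`; for fixed `m` the largest `i` is `natDegree c_m`.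
`IsToricIn (ys none) v a`: let `q` be a polynomial of degree `≤ N` in `X_0`; `aeval (1/x_0, x_1, ..) q = x_0^(-N) alg q'`,
where `q'` has the monomials `(N - i, m)` for the monomials `(i,m)` of `q` with the same coefficients, and
`v(x_0^(-N)) + wt b (N-i,m) = a_0 N - a_0 (N - i) + ∑ a_j m_j = wt a (i,m)`. -/
def StEX : Prop := ∀ (k : ℕ) (s : Option ℂ) (a u : Fin (k + 1) → ℤ), 0 ≤ a 0 → ∑ j, a j * u j = 1 →
  ∃ v : DivVal (Kn (k + 1)), IsToricIn (ys s) v a ∧ IsVal v s a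

/-- MODULE UNI (80-140 lines).  Uniqueness, values at the coordinates.
Proof.  First: `IsVal` determines `v` on polynomials, hence (quotients) on `K`; two `DivVal` with the same `ord` are equal.
Second and third: `IsVal` for `f = X_0 - p'` (`Phi f = C (X - p')`, one term, `zs s (X - p')` is `-1` for `s = none`, `1` for
`s = some p'`, `0` for other points) and `f = X_j`.  Fourth: compare the values at `x_j` (`a_j = a'_j`) and at
`x_0 - p'` for several `p'`: (none, none): `- a_0 = - a'_0`; (none, some p): for `p' ≠ p` `- a_0 = 0` and for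
`p' = p` `- a_0 = a'_0`; (some p, some p') with `p ≠ p'`: `a_0 = 0`, `a'_0 = 0`; `p = p'`: `a_0 = a'_0`. -/
def StUNI : Prop := ∀ (k : ℕ),
  (∀ (s : Option ℂ) (a : Fin (k + 1) → ℤ) (v v' : DivVal (Kn (k + 1))),
    IsVal v s a → IsVal v' s a → v = v') ∧
  (∀ (s : Option ℂ) (a : Fin (k + 1) → ℤ) (v : DivVal (Kn (k + 1))) (p : ℂ), IsVal v s a →
    v.ord (x 0 - algebraMap ℂ (Kn (k + 1)) p) = a 0 * zs s (Polynomial.X - Polynomial.C p)) ∧
  (∀ (s : Option ℂ) (a : Fin (k + 1) → ℤ) (v : DivVal (Kn (k + 1))), IsVal v s a →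
    v.ord (x 0) = a 0 * eps s ∧ ∀ j : Fin k, v.ord (x j.succ) = a j.succ) ∧
  (∀ (s s' : Option ℂ) (a a' : Fin (k + 1) → ℤ) (v : DivVal (Kn (k + 1))), IsVal v s a → IsVal v s' a' →
    0 ≤ a 0 → 0 ≤ a' 0 → a = a' ∧ (a 0 ≠ 0 → s = s')) ∧
  (∀ p : ℂ, zs none (Polynomial.X - Polynomial.C p) = -1 ∧ zs (some p) (Polynomial.X - Polynomial.C p) = 1 ∧
    ∀ p' : ℂ, p' ≠ p → zs (some p') (Polynomial.X - Polynomial.C p) = 0) ∧
  eps none = -1 ∧ eps (some 0) = 1 ∧ ∀ p : ℂ, p ≠ 0 → eps (some p) = 0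

/-- MODULE TOR (80-140 lines).  Toric valuations.
Proof.  For `v.ord = monOrd b` and a polynomial `f`: `v(f)` = minimum over the monomials `(i,m)` of `f` of
`b_0 i + ∑ b_j m_j` (StExt, StMon, StPHI); for fixed `m` the minimum of `b_0 i` over the support of `c_m` is
`b_0 rootMultiplicity 0 c_m` if `b_0 ≥ 0` and `b_0 natDegree c_m` if `b_0 ≤ 0`.  Converse: `v(x_0) = a_0 eps s`,
`v(x_j) = a_j` and StUNI: let `b = a`, resp. `b = (-a_0, a_1, ..)`; a primitive `b` has a toric valuation `v_b` (StTorV), by the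
first part it is `IsVal .. s a`, so it is equal to `v`. -/
def StTOR : Prop := ∀ (k : ℕ) (v : DivVal (Kn (k + 1))),
  (∀ b : Fin (k + 1) → ℤ, v.ord = monOrd b → 0 ≤ b 0 → IsVal v (some 0) b) ∧
  (∀ b : Fin (k + 1) → ℤ, v.ord = monOrd b → b 0 ≤ 0 → IsVal v none (Function.update b 0 (- b 0))) ∧
  (∀ a u : Fin (k + 1) → ℤ, ∑ j, a j * u j = 1 → 0 ≤ a 0 → IsVal v (some 0) a → v.ord = monOrd a) ∧
  (∀ a u : Fin (k + 1) → ℤ, ∑ j, a j * u j = 1 → 0 ≤ a 0 → IsVal v none a →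
    v.ord = monOrd (Function.update a 0 (- a 0)))

/-- MODULE OMS (100-180 lines).  Order of `ω = dx_0/x_0 ... dx_k/x_k`.
Proof.  `s = none` or `s = some 0`: `v` is toric (StTOR), `ordOmega v = -1` by StTorOm.  `s = some p`, `p ≠ 0`: let `τ` be the
automorphism with `τ x_0 = x_0 - p`, `τ x_j = x_j` (StTau).  Let `v_a` be the toric valuation of weights `a` and `v1 = pull τ.symm v_a`,
i.e. `v1(τ g) = v_a(g)`, `pull τ v1 = v_a`.  As in module EX `v1` satisfies `IsVal v1 (some p) a` (or: take the valuation `v1` of StEX, which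
equals `v` by StUNI; `IsToricIn (ys (some p)) v a` says `v(aeval ys q) = min wt a`, so `(pull τ v)(alg q) = v(τ (alg q)) = v(aeval ys q)` and `pull τ v` is toric
of weights `a`).  StPull for `v` and `τ`: `-1 = ordOmega (pull τ v) = ordOmega v + v(jac (τ x_j)) - ∑ v(τ x_j)`.  `θ_0 (x_0 - p) = x_0`,
`θ_i x_j = δ_ij x_j`: the matrix is diagonal and `jac = ∏ x_j`, so `v(jac) = v(x_0) + ∑ v(x_j)`, and `v(x_0) = 0` (StUNI, `eps (some p) = 0`),
`v(τ x_0) = v(x_0 - p) = a_0`.  Hence `ordOmega v = -1 - 0 + a_0`. -/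
def StOMS : Prop := ∀ (k : ℕ) (s : Option ℂ) (a u : Fin (k + 1) → ℤ) (v : DivVal (Kn (k + 1))),
  ∑ j, a j * u j = 1 → 0 ≤ a 0 → IsVal v s a →
    ordOmega v = if s = none ∨ s = some 0 then -1 else a 0 - 1

/-- MODULE PDC (120-200 lines).  Critical torus primes.
Proof.  `X_0 - p` has degree 1, so it is irreducible, and (`p ≠ 0`) it is not associated to a variable.
(2) `padOrd (X_0 - p)`: for `f = ∑ c_m(x_0) x^m` the multiplicity of `X_0 - p` in `f` is the minimum of the multiplicities in the `c_m`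
(`(X_0-p)^r ∣ f` iff `(X-p)^r ∣ c_m` for all `m`; `Phi` is an isomorphism, or: `(X - p)^r` divides all coefficients of `Phi f`; to go back to `f`
note that `g ↦ Phi g` is surjective), so `padOrd` satisfies `IsVal` with weights `(1,0,..,0)`; conversely use uniqueness (StUNI) and the existence of a `v`
with `v.ord = padOrd (X_0 - p)` (StPadV).  (3) `v(x_j) = 0` for all `j` by StPadV, so `a_j = 0` for `j ≥ 1` (StUNI) and `a_0 eps s = 0`.  All values of `v` on polynomials are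
multiples of `a_0`, and `v` takes the value 1: `a_0 = 1` (primitive vector with `a_j = 0`: `a_0 u_0 = 1`), so `eps s = 0`, `s = some p` with `p ≠ 0`.
`v(x_0 - p) = 1`, so `Q` divides `X_0 - p`, both irreducible. -/
def StPDC : Prop := ∀ (k : ℕ),
  (∀ p : ℂ, p ≠ 0 → TorusPrime (X 0 - C p : Pn (k + 1))) ∧
  (∀ (p : ℂ) (v : DivVal (Kn (k + 1))), p ≠ 0 →
    (v.ord = padOrd (X 0 - C p) ↔ IsVal v (some p) (Pi.single 0 1))) ∧
  (∀ (s : Option ℂ) (a u : Fin (k + 1) → ℤ) (v : DivVal (Kn (k + 1))) (Q : Pn (k + 1)),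
    ∑ j, a j * u j = 1 → 0 ≤ a 0 → IsVal v s a → TorusPrime Q → v.ord = padOrd Q →
    ∃ p : ℂ, p ≠ 0 ∧ s = some p ∧ a = Pi.single 0 1 ∧ Associated Q (X 0 - C p))

/-- MODULE TRM (80-140 lines).  Every Laurent polynomial has terms.
Proof.  `f = alg g * xm u`, `g ≠ 0`.  `T` = the image of `(Phi k g).support` under
`m ↦ ((fun s => zs s c_m + u_0 eps s), (fun j => m_j + u_(j+1)))`, `c_m = (Phi k g).coeff m ≠ 0`.
`∑_(s ∈ crit P) eps s = -1 + 1 + 0 = 0` (`0 ∉ P`, StUNI) and `∑_(s ∈ crit P) zs s c_m = - natDegree c_m + ∑_(p ∈ P ∪ {0}) rootMultiplicity p c_m ≤ 0`: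
the sum of the multiplicities of distinct points is at most the number of roots (`Polynomial.count_roots`, `Multiset` sum over a finset `≤ card`, `Polynomial.card_roots'`).
For `IsVal v s a`: `v(f) = v(g) + ∑_j u_j v(x_j)` (see `Sum_ord_xm`) `= v(g) + u_0 a_0 eps s + ∑ u_(j+1) a_(j+1)` (StUNI), and `IsVal` for `g`. -/
def StTRM : Prop := ∀ (k : ℕ) (P : Finset ℂ) (f : Kn (k + 1)), (0 : ℂ) ∉ P → IsLaurent f → f ≠ 0 →
  ∃ T, HasTerms P f T

/-! ## Lifts -/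

/-- MODULE COR (60-100 lines).  The defect of a Laurent polynomial.
Proof.  `HasTerms` for `v'` gives `t ∈ T` with `v'(f) = pr w (t_s₀) α`, `t = (z,α)`.  By `base`, `tor` (and `e.1 ∈ crit P` for `e ∈ D`, sum over the fibres of `e ↦ e.1`):
`∑_e la_e φ_e(t) = ∑_(s ∈ crit P) (d + [s = s₀] κ w_0) z_s + ∑_j κ w_j α_j = d σ(t) + κ pr w (z_s₀) α = d σ(t) + κ v'(f)`.
So `Λ(ord f) = ∑ la_e v_e(f) - κ v'(f) = d σ(t) - ∑ la_e (φ_e(t) - v_e(f))`; `φ_e(t) - v_e(f) ≥ 0` by `HasTerms` for `v_e`. -/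
def StCOR : Prop := ∀ (k : ℕ) (P : Finset ℂ) (D : Finset (Option ℂ × (Fin (k + 1) → ℤ))) (A : Adm P D)
  (f : Kn (k + 1)) (T : Finset ((Option ℂ → ℤ) × (Fin k → ℤ))), IsC1 P D → HasTerms P f T →
  ∃ t ∈ T, A.Lam (fun v => v.ord f) = A.d * ∑ s ∈ crit P, t.1 s -
      ∑ e ∈ D, (A.la e : ℤ) * (pr e.2 (t.1 e.1) t.2 - (A.vd e).ord f) ∧
    (∑ s ∈ crit P, t.1 s ≤ 0) ∧ ∀ e ∈ D, 0 ≤ pr e.2 (t.1 e.1) t.2 - (A.vd e).ord f

/-- MODULE BND (80-120 lines).  Completeness gives bounds.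
Proof.  For integral vectors `(b, β)` let `N, t, c` be as in `complete`.  Then (sum over the fibres of `e ↦ e.1`)
`∑_e c_e φ_e(z,α) = ∑_(s ∈ crit P) (N b_s + t) z_s + ∑_j N β_j α_j = N (∑ b_s z_s + ∑ β_j α_j) + t ∑ z_s`,
the left side is at least `- c ∑ c_e` and `t ∑ z_s ≤ 0`, so `∑ b_s z_s + ∑ β_j α_j ≥ - c ∑_e c_e` (`N ≥ 1`).  Use this for
`(b, β) = ± e_s` (`s ∈ crit P`), `± e_j`; `C` = the sum of the finitely many numbers `∑ c_e`. -/
def StBND : Prop := ∀ (k : ℕ) (P : Finset ℂ) (D : Finset (Option ℂ × (Fin (k + 1) → ℤ))), IsC1 P D →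
  ∃ C₀ : ℝ, 0 ≤ C₀ ∧ ∀ (z : Option ℂ → ℝ) (α : Fin k → ℝ) (c : ℝ), 0 ≤ c →
    (∀ e ∈ D, - c ≤ prR e.2 (z e.1) α) → ∑ s ∈ crit P, z s ≤ 0 →
      (∀ s ∈ crit P, |z s| ≤ C₀ * c) ∧ ∀ j, |α j| ≤ C₀ * c

/-- MODULE PRI (120-200 lines).  The defect of the coordinates and of the torus primes.
Proof.  (1) `v_e(x_0) = e_0 eps(e.1)`, so `∑ la_e v_e(x_0)` = (sum of the slice of `0`) - (sum of the slice of `∞`) `= κ w_0 eps(s₀) = κ v'(x_0)` (`base`; the other slices have `eps = 0`, as `0 ∉ P`);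
for `x_j`: `tor`.  (2) the same with `zs s (X - p)`: `1` at `some p`, `-1` at `none`, `0` at the other critical points.
(3) `Q` is a Laurent polynomial; `T` from StTRM, `t` from StCOR: `Λ(ord Q) ≤ 0`.  Suppose that it is `0`: then (`d ≥ 1`, `la ≥ 1`) `σ(t) = 0` and `φ_e(t) = v_e(Q)` for all `e ∈ D`.
Let `t' ∈ T`: `z = t' - t` satisfies `φ_e(z) = φ_e(t') - v_e(Q) ≥ 0` for `e ∈ D` and `σ(z) ≤ 0`, so by StBND with `c = 0` `t'_s = t_s` for `s ∈ crit P` and the exponents are equal.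
Hence `v(Q) = pr a (t_s) α` for every `v` with `IsVal v s a`, `0 ≤ a_0`, `s ∈ crit P`.  For `p ∈ P`: `v = padOrd (X_0 - p)` (StPDC, StPadV), weights `(1,0,..,0)`: `v(Q) = t_(some p)`, and
`v(Q) = 0` because the prime `Q` is not associated to `X_0 - p` (StPad: `X_0 - p ∣ Q` would make them associated).  So `t_∞ + t_0 = 0`.
For every `b`: `monOrd b Q = b_0 t_0 + ∑ b_j α_j`: if `b = 0` clear (`monOrd 0 Q = 0`, StMonL(1) with `k = 0`), otherwise `b = κ b'`, `b'` primitive (`Sum_prim`), StMonL(1), StTorV, StTOR: (`b'_0 ≥ 0`) `pr b' t_0 α`,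
(`b'_0 ≤ 0`) `- b'_0 t_∞ + ∑ b'_j α_j = b'_0 t_0 + ..`.  This contradicts StMonL(4).  So `Λ(ord Q) ≤ -1` (an integer). -/
def StPRI : Prop := ∀ (k : ℕ) (P : Finset ℂ) (D : Finset (Option ℂ × (Fin (k + 1) → ℤ))) (A : Adm P D),
  IsC1 P D →
  (∀ j, A.Lam (fun v => v.ord (x j)) = 0) ∧
  (∀ p ∈ P, A.Lam (fun v => v.ord (x 0 - algebraMap ℂ (Kn (k + 1)) p)) = 0) ∧
  ∀ Q : Pn (k + 1), TorusPrime Q → (∀ p ∈ P, ¬ Associated Q (X 0 - C p)) →
    A.Lam (fun v => v.ord (algebraMap (Pn (k + 1)) (Kn (k + 1)) Q)) ≤ -1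

/-- MODULE NEA (150-250 lines).  A nef b-divisor without defect, first step: it is linear on `D`.
Proof.  Let `A₁` be the witness of `NormNef M` (all generators Laurent polynomials), for `m ≥ 1` `N ≥ 1`, `F` with `N (m M + A₁.div) = F.div`.  Put `a = Λ(A₁.div)`.
`Λ(F.div) = N (m Λ(M) + a) ≤ N a`.  Let `f` be a generator of `F` with `F.div v' = - v'(f)`, `T` from StTRM, `t` from StCOR.  For `e ∈ D` let `r_e = F.div v_e + v_e(f) ≥ 0`.
`∑ la_e r_e = Λ(F.div) + κ F.div v' + ∑ la_e v_e(f) = Λ(F.div) + Λ(ord f)`; as `∑ la_e r_e ≥ 0`, `- Λ(ord f) ≤ N a`, and `Λ(ord f) ≤ 0`, so `∑ la_e r_e ≤ N a`.  By StCOR `0 ≤ φ_e(t) - v_e(f) ≤ N a`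
and `- N a ≤ σ(t) ≤ 0` (`d, la ≥ 1`).  So `φ_e(t) + N m M(v_e) = (φ_e(t) - v_e(f)) + r_e - N A₁.div v_e` has absolute value `≤ N C`, `C = 2 a + max |A₁.div v_e|`.
Dividing by `N m`: for every `m` there are real `ζ, α` with `|φ_e(ζ,α) + M(v_e)| ≤ C/m` for `e ∈ D` and `|σ(ζ)| ≤ C/m`.  The image of the linear map
`(ζ, α) ↦ ((φ_e(ζ,α))_(e ∈ D), σ(ζ))` from `(crit P → ℝ) × (Fin k → ℝ)` (extend `ζ` by zero) to a finite dimensional space is closed
(`Submodule.closed_of_finiteDimensional`), so `((- M(v_e))_e, 0)` is in the image. -/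
def StNEA : Prop := ∀ (k : ℕ) (P : Finset ℂ) (D : Finset (Option ℂ × (Fin (k + 1) → ℤ))) (A : Adm P D)
  (M : DivVal (Kn (k + 1)) → ℤ), IsC1 P D → NormNef M → A.Lam M ≤ 0 →
  ∃ (ζ : Option ℂ → ℝ) (α : Fin k → ℝ), ∑ s ∈ crit P, ζ s = 0 ∧
    ∀ e ∈ D, (M (A.vd e) : ℝ) = - prR e.2 (ζ e.1) α

/-- MODULE NEB (120-180 lines).  Second step: it is linear on all invariant valuations over critical points.
Proof.  `A₁, N, F` as in NEA.  `C₁ ≥ 0` with `A₁.div v_e ≤ C₁` for `e ∈ D`.  Let `f` be a generator of `F`, `T` from StTRM, `t ∈ T`; put `y_s = t_s - N m ζ_s`, `β = t.2 - N m α`.  For `e ∈ D`: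
`φ_e(y,β) = φ_e(t) + N m M(v_e) ≥ v_e(f) + N m M(v_e) ≥ - F.div v_e + N m M(v_e) = - N A₁.div v_e ≥ - N C₁`, and `σ(y) = σ(t) ≤ 0`.  StBND: `|y_s|, |β_j| ≤ C₀ N C₁`.
So for `v` with `IsVal v s a`: every `|pr a t_s t.2 - N m prR a ζ_s α| ≤ N C₂`, `C₂ = C₀ C₁ (|a_0| + ∑ |a_j|)`; as `v(f)` is one of the `pr a t_s t.2`, `|v(f) - N m prR a ζ_s α| ≤ N C₂` for all generators, hence
`|F.div v + N m prR a ζ_s α| ≤ N C₂`, i.e. `|m M v + A₁.div v + m prR a ζ_s α| ≤ C₂` for all `m ≥ 1`, so `M v + prR a ζ_s α = 0`. -/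
def StNEB : Prop := ∀ (k : ℕ) (P : Finset ℂ) (D : Finset (Option ℂ × (Fin (k + 1) → ℤ)))
  (vd : Option ℂ × (Fin (k + 1) → ℤ) → DivVal (Kn (k + 1)))
  (M : DivVal (Kn (k + 1)) → ℤ) (ζ : Option ℂ → ℝ) (α : Fin k → ℝ), IsC1 P D →
  (∀ e ∈ D, IsVal (vd e) e.1 e.2) → NormNef M →
  ∑ s ∈ crit P, ζ s = 0 → (∀ e ∈ D, (M (vd e) : ℝ) = - prR e.2 (ζ e.1) α) →
  ∀ (s : Option ℂ) (a : Fin (k + 1) → ℤ) (v : DivVal (Kn (k + 1))), s ∈ crit P → 0 ≤ a 0 → IsVal v s a →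
    (M v : ℝ) = - prR a (ζ s) α

/-- MODULE NEC (100-160 lines).  Third step: it is principal.
Proof.  `ζ, α` from StNEA, StNEB.  For `p ∈ P` (`p ≠ 0`) let `v.ord = padOrd (X_0 - p)` (StPadV, StPDC): `M v = 0` (`NormNef`) and `M v = - ζ_p`: so `ζ_p = 0`, and `ζ_∞ = - ζ_0`.
Let `v` be toric, `v.ord = monOrd b`: by StTOR and StNEB `M v = - (b_0 ζ_0 + ∑ b_j α_j)` in both cases `b_0 ≥ 0` (`s = some 0`) and `b_0 ≤ 0` (`s = none`, weights `(-b_0, b_1, ..)`).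
Put `u_j = M v_j`, `v_j` toric of weight `e_j` (StTorV): `u_0 = - ζ_0`, `u_j = - α_j`, so `M v = ∑ u_j b_j` (an identity of integers).  StRig. -/
def StNEC : Prop := ∀ (k : ℕ) (P : Finset ℂ) (D : Finset (Option ℂ × (Fin (k + 1) → ℤ))) (A : Adm P D)
  (M : DivVal (Kn (k + 1)) → ℤ), IsC1 P D → NormNef M → ¬ IsPrincipal M → 1 ≤ A.Lam M

/-! ## Combinatorics -/

/-- MODULE CMB (200-300 lines, pure combinatorics).  Existence of a good lift.
Proof.  `r + 1 = |S| ≥ 3`.  For `λ : δ → ℕ` let `σ_s(λ) = ∑_(D ∈ E, f D = s) λ_D q_D`.  Elements with `f D ∉ S` or `q_D = 0` get `λ_D = 1` for ever.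
Target: a function `λ* ≥ 1` with all `σ_s(λ*) = L` for one number `L`: let `Π` be the product of all `q_D > 0` (`D ∈ E`), `n_s` the number of
`D ∈ E` with `f D = s`, `q_D > 0` (`≥ 1` as `σ_s(1) ≥ 2`), `m = max n_s`; for every `s` choose one such `D_s` and put `λ*_D = Π/q_D` for the others and `λ*_(D_s) = (m - n_s + 1) Π/q_(D_s)`: `L = m Π`.
For a pair `s ≠ s'` in `S` let `ρ_(s,s')(λ) = ∑_(t ∈ S, t ≠ s, s') σ_t(λ)` and `μ(λ)` = the minimum of these numbers over all pairs; `A(λ) = ∑_(D ∈ E) λ_D - μ(λ)` (an integer).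
At `λ = 1`: `σ_t ≥ 2`, so `A(1) ≤ |E| - 2 (|S| - 2)`.
Claim: if `1 ≤ λ ≤ λ*` and at least two slices `s` have `σ_s(λ) > m₀ := min_s σ_s(λ)`, then there is `D ∈ E` with `λ_D < λ*_D` such that `λ' = λ + 1_D` satisfies `A(λ') ≤ A(λ)`:
let `σ_(s₁)(λ) = m₀`; `m₀ < L` (otherwise all `σ_s = L`), so some `D` with `f D = s₁`, `q_D > 0` has `λ_D < λ*_D`.  Let `(s,s')` be a pair with `μ(λ') = ρ_(s,s')(λ')`.  If `s₁ ∉ {s,s'}`:
`ρ_(s,s')(λ') = ρ_(s,s')(λ) + q_D ≥ μ(λ) + 1`.  If `s = s₁`: choose `s'' ≠ s₁, s'` with `σ_(s'')(λ) > m₀`; `ρ_(s₁,s')(λ') = ρ_(s₁,s')(λ) = ρ_(s'',s')(λ) + σ_(s'')(λ) - σ_(s₁)(λ) ≥ μ(λ) + 1`.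
So `μ(λ') ≥ μ(λ) + 1` and `A(λ') ≤ A(λ)`.  Induction on `∑ (λ*_D - λ_D)`: we reach `λ` with `1 ≤ λ ≤ λ*`, `A(λ) ≤ |E| - 2(|S|-2)` and at most one slice with `σ_s > m₀`.
Put `d = m₀ ≥ 1`, `s₀` = that slice (any slice if there is none), `e = σ_(s₀) - d`.  Then `μ(λ) ≤ ρ_(s₀, s)(λ) = (|S| - 2) d` for some `s ≠ s₀`, so `∑ λ_D = A(λ) + μ(λ) ≤ |E| - 2(|S|-2) + (|S|-2) d`. -/
def StCMB : Prop := ∀ (σ δ : Type) [DecidableEq σ] (S : Finset σ) (E : Finset δ) (f : δ → σ) (q : δ → ℕ),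
  3 ≤ S.card → (∀ s ∈ S, 2 ≤ ∑ D ∈ E.filter (fun D => f D = s), q D) →
  ∃ (la : δ → ℕ) (d e : ℕ) (s₀ : σ), s₀ ∈ S ∧ (∀ D ∈ E, 1 ≤ la D) ∧ 1 ≤ d ∧
    (∀ s ∈ S, ∑ D ∈ E.filter (fun D => f D = s), la D * q D = d + if s = s₀ then e else 0) ∧
    ∑ D ∈ E, la D + 2 * (S.card - 2) ≤ E.card + (S.card - 2) * d

/-- MODULE ADM (80-120 lines).  The good lift as a structure.
Proof.  StCMB for `S = crit P` (`card = |P| + 2` as `0 ∉ P`), `E = D`, `f e = e.1`, `q e = (e.2 0).toNat` (`e.2 0 ≥ 0`).  Let `W = (e, ∑ la_e e_1, .., ∑ la_e e_k)`.  If `W = 0`: `κ = 0`, `w = (1,0,..,0)`.  Otherwise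
`W = κ w` with `κ ≥ 1`, `w` primitive (`Sum_prim` of `Pool.Agent.Helper53.CX.M_Sum`), `w_0 ≥ 0`.  `v'` from StEX. -/
def StADM : Prop := ∀ (k : ℕ) (P : Finset ℂ) (D : Finset (Option ℂ × (Fin (k + 1) → ℤ)))
  (vd : Option ℂ × (Fin (k + 1) → ℤ) → DivVal (Kn (k + 1))), IsC1 P D →
  (∀ e ∈ D, IsVal (vd e) e.1 e.2) → ∃ A : Adm P D, A.vd = vd ∧
    ∑ e ∈ D, (A.la e : ℤ) + 2 * P.card ≤ D.card + P.card * A.d

/-! ## The theorem -/

/-- MODULE SUC (250-350 lines).  The main inequality.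
Template: `Pool.Agent.Helper53.CX.M_Sum` (copy it).  Notation: `h_i`, `g'`, `G0`, `Q0` (the set of StFac), `U_j`, `E_Q` as there: for all `v`
`B v = rdiv g' v - ordOmega v - ∑ b_i M'_i v`, `M'_i = M_i - ord h_i` (`NormNef`, not principal), `rdiv g' v = ∑ U_j v(x_j) + ∑_(Q ∈ Q0) E_Q v(Q)`, `B v_Q = E_Q` for torus primes.
`Q1` = the elements of `Q0` not associated to any `X_0 - p`, `p ∈ P`: for `Q ∈ Q1` `E_Q ≥ 0` by the hypothesis (StBri: `IsPAdic`).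
`vd e` = the valuation of StEX (both properties) for `e ∈ D`; so `B (vd e) ≥ 0` (in `S` or `= 1`).  `A` from StADM.  For a real function `ψ` on valuations let `Λ(ψ) = ∑ la_e ψ(v_e) - κ ψ(v')`; put `ψ v = B v + ordOmega v = rdiv g' v - ∑ b_i M'_i v`.
StPRI: `Λ(ord x_j) = 0`, `Λ(ord Q) = 0` for `Q ∈ Q0 \\ Q1` (`Q` is a constant times `X_0 - p`), `Λ(ord Q) ≤ -1` for `Q ∈ Q1`; StNEC: `Λ(M'_i) ≥ 1`.  So `Λ(ψ) ≤ - ∑_(Q1) E_Q - ∑ b_i`.
On the other hand `B v' ≤ 1`, so `Λ(ψ) ≥ ∑ la_e B(v_e) + ∑ la_e ordOmega(v_e) - κ (1 + ordOmega v')`, and by StOMS `ordOmega v_e = -1 + [e.1 ∈ some P] e_0`, `1 + ordOmega v' = [s₀ ∈ some P] w_0`, hence (`base`)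
`∑ la_e ordOmega(v_e) - κ (1 + ordOmega v') = - ∑ la_e + ∑_(p ∈ P) (d + [s₀ = some p] κ w_0) - κ [s₀ ∈ some P] w_0 = - ∑ la_e + |P| d`.
Together `∑ la_e B(v_e) + ∑_(Q1) E_Q + ∑ b_i ≤ ∑ la_e - |P| d ≤ |D| - 2 |P|`, and `B(v_e) ≥ 0`, `la_e ≥ 1`. -/
def StSUC : Prop := ∀ (k : ℕ) (ι : Type) [Fintype ι] (S : Set (DivVal (Kn (k + 1))))
  (p : PairData (k + 1) ι), IsGenLCY S p →
  ∀ (P : Finset ℂ) (D : Finset (Option ℂ × (Fin (k + 1) → ℤ))), IsC1 P D →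
  (∀ v, IsC1Prime P D v → v ∈ S ∨ p.B v = 1) →
  ∃ Q : Finset (Pn (k + 1)), (∀ R ∈ Q, TorusPrime R ∧ ∀ c ∈ P, ¬ Associated R (X 0 - C c)) ∧
    (∀ R ∈ Q, ∀ R' ∈ Q, Associated R R' → R = R') ∧
    (∀ R v, TorusPrime R → (∀ c ∈ P, ¬ Associated R (X 0 - C c)) → v.ord = padOrd R →
      (∀ R' ∈ Q, ¬ Associated R R') → p.B v = 0) ∧
    ∃ (vd : Option ℂ × (Fin (k + 1) → ℤ) → DivVal (Kn (k + 1))) (vP : Pn (k + 1) → DivVal (Kn (k + 1))),
      (∀ e ∈ D, IsToricIn (ys e.1) (vd e) e.2 ∧ IsVal (vd e) e.1 e.2) ∧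
      (∀ R ∈ Q, (vP R).ord = padOrd R) ∧
      ∑ e ∈ D, p.B (vd e) + ∑ R ∈ Q, p.B (vP R) + ∑ i, p.b i + 2 * P.card ≤ (D.card : ℝ)

/-- MODULE FIC (250-350 lines).  The theorem.
Template: `Pool.Agent.Helper53.CX.M_Fin1` (copy it).  `C` = the given finite set of prime divisors of `X` (`⊆ S`), `Q, vd, vP` from StSUC; `vd` is injective on `D` (StUNI: `vd e = vd e'` gives `a = a'`, and `s = s'` if `a_0 ≠ 0`; if
`a_0 = 0` both points are `none` by `IsC1.mem`).  A torus prime is critical if it is associated to `X_0 - c`, `c ∈ P`; let `π_c` be the valuation with `ord = padOrd (X_0 - c)` (StPadV, StPDC).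
`D_N = {e ∈ D : vd e ∉ S}`, `Q_N = {R ∈ Q : vP R ∉ S}`: there `B = 1`.  `D_c` = the `e ∈ D` with `vd e = π_c` for some `c ∈ P`.  `P_S = {c ∈ P : π_c ∈ S}`.
Split `C` into: `C_D` = the elements `vd e`, `e ∈ D`; `C_Q` = `P`-adic valuations of non critical torus primes; `C_P` = the `π_c`, `c ∈ P`, which are not of the form `vd e`; `C_E` = the rest (by StPDC no `vd e` is the
`padOrd` of a torus prime except `π_c = vd (some c, (1,0,..,0))`).  As in Fin1 `∑_(C_D) B ≤ ∑_D B(vd e) - |D_N|`, `∑_(C_Q) B ≤ ∑_Q B(vP R) - |Q_N|` (`B = 0` at the non critical torus primes not in `Q`), `∑_(C_P) B ≤ |C_P|`, `∑_(C_E) B ≤ |C_E|`.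
StRnk for `T = {vd e : e ∈ D, vd e ∈ S, vd e ≠ all π_c} ∪ C_E` and the finite set of primes `Q_N ∪ {X_0 - c : c ∈ P \\ P_S}` (every torus prime is in `S` or associated to one of these: critical ones clear, non critical ones as in Fin1):
`|D| - |D_N| - |{e ∈ D_c : vd e ∈ S}| + |C_E| ≤ n + |Q_N| + |P| - |P_S| + ρ`.  The `π_c` with `c ∈ P_S` which are some `vd e` and the elements of `C_P` are distinct elements of `{π_c : c ∈ P_S}`: `|C_P| + |{e ∈ D_c : vd e ∈ S}| ≤ |P_S|`.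
Adding: `∑_C B + ∑ b_i ≤ (|D| - 2|P|) - |D_N| - |Q_N| + |C_P| + |C_E| ≤ n + ρ - |P|`. -/
def StFIC : Prop := ∀ (k : ℕ) (ι : Type) [Fintype ι] (S : Set (DivVal (Kn (k + 1))))
  (p : PairData (k + 1) ι), IsGenLCY S p →
  ∀ (P : Finset ℂ) (D : Finset (Option ℂ × (Fin (k + 1) → ℤ))), IsC1 P D →
  (∀ v, IsC1Prime P D v → v ∈ S ∨ p.B v = 1) →
  ∀ (C : Finset (DivVal (Kn (k + 1)))) (ρ : ℕ), (C : Set (DivVal (Kn (k + 1)))) ⊆ S →
  Module.rank ℝ (Cl S) = (ρ : Cardinal) →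
  ∑ v ∈ C, p.B v + ∑ i, p.b i + P.card ≤ ((k + 1 : ℕ) : ℝ) + ρ

end Pool.Agent.Helper83.CO
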