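import Pool.Agent.Helper53.CX.St
import Pool.Agent.Helper83.CO.St

/-!
# Project CO (MP_140278_ag): module FIC, the theorem
-/

set_option autoImplicit false

open scoped BigOperators
open MvPolynomial

namespace Pool.Agent.Helper83.CO

open Pool.Agent.Helper53.CX

theorem FIC_ext {K : Type} [Field K] [Algebra ℂ K] {v w : DivVal K}
    (h : v.ord = w.ord) : v = w := by
  cases v
  cases w
  simp only at h
  subst h
  rfl

theorem FIC_pad {n : ℕ} {P Q : Pn n} (h : Associated P Q) : padOrd P = padOrd Q := by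
  unfold padOrd
  congr 1
  funext p
  rw [multiplicity_eq_of_associated_left h]

/-- Module FIC. -/
theorem hFIC (hUNI : StUNI) (hPDC : StPDC) (hSUC : StSUC) (hBri : StBri) (hPadV : StPadV)
    (hRnk : StRnk) : StFIC := by
  intro k ι _ S p hp P D hC1 hprime C ρ hCS hrank
  classical
  obtain ⟨Q, hQ1, hQ2, hQ3, vd, vP, hvd, hvP, hineq⟩ := hSUC k ι S p hp P D hC1 hprime
  obtain ⟨-, -, -, hU4, -⟩ := hUNI k
  obtain ⟨hPa, hPb, hPc⟩ := hPDC k
  have hP0 : ∀ c ∈ P, c ≠ 0 := fun c hc h => hC1.zero (h ▸ hc)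
  -- dictionary
  have hdS : ∀ e ∈ D, vd e ∈ S ∨ p.B (vd e) = 1 := fun e he =>
    hprime _ (Or.inl ⟨e, he, (hvd e he).1⟩)
  have hRS : ∀ R ∈ Q, vP R ∈ S ∨ p.B (vP R) = 1 := fun R hR =>
    hprime _ (Or.inr ⟨R, (hQ1 R hR).1, (hQ1 R hR).2,
      ((hBri (k + 1) (vP R)).2.1 R (hQ1 R hR).1.1).2 (hvP R hR)⟩)
  have hvdinj : ∀ e ∈ D, ∀ e' ∈ D, vd e = vd e' → e = e' := by
    intro e he e' he' h
    obtain ⟨-, h2, h3⟩ := hC1.mem e he
    obtain ⟨-, h2', h3'⟩ := hC1.mem e' he'
    have h4 := (hvd e he).2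
    rw [h] at h4
    obtain ⟨h5, h6⟩ := hU4 e.1 e'.1 e.2 e'.2 (vd e') h4 (hvd e' he').2 h2 h2'
    have h7 : e.1 = e'.1 := by
      by_cases h0 : e.2 0 = 0
      · rw [h3 h0, h3' (by rw [← h5]; exact h0)]
      · exact h6 h0
    exact Prod.ext h7 h5
  have hvPinj : ∀ R ∈ Q, ∀ R' ∈ Q, vP R = vP R' → R = R' := by
    intro R hR R' hR' h
    exact hQ2 R hR R' hR' ((hBri (k + 1) (vP R)).2.2.2.1 R R' (hQ1 R hR).1.1 (hQ1 R' hR').1.1
      (hvP R hR) (by rw [h]; exact hvP R' hR'))
  -- the critical primes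
  obtain ⟨c₀, hc₀⟩ := hC1.nonempty
  obtain ⟨v₀, -⟩ := (hPadV (k + 1) _ (hPa c₀ (hP0 c₀ hc₀)).1).1
  have hpi : ∀ c : ℂ, ∃ v : DivVal (Kn (k + 1)), c ∈ P → v.ord = padOrd (X 0 - MvPolynomial.C c) := by
    intro c
    by_cases hc : c ∈ P
    · obtain ⟨v, hv⟩ := (hPadV (k + 1) _ (hPa c (hP0 c hc)).1).1
      exact ⟨v, fun _ => hv⟩
    · exact ⟨v₀, fun h => absurd h hc⟩
  choose π hπ using hpi
  have hπinj : ∀ c ∈ P, ∀ c' ∈ P, π c = π c' → c = c' := by
    intro c hc c' hc' h
    have h1 := (hPb c (π c) (hP0 c hc)).1 (hπ c hc)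
    have h2 := (hPb c' (π c') (hP0 c' hc')).1 (hπ c' hc')
    rw [← h] at h2
    have h3 := (hU4 (some c) (some c') _ _ (π c) h1 h2 (by simp) (by simp)).2 (by simp)
    exact Option.some.inj h3
  have hdπ : ∀ e ∈ D, ∀ R, TorusPrime R → (vd e).ord = padOrd R → vd e ∈ P.image π := by
    intro e he R hR hord
    obtain ⟨h1, h2, -⟩ := hC1.mem e he
    obtain ⟨u, hu⟩ := hC1.prim e he
    obtain ⟨q, hq0, hq1, -, hq3⟩ := hPc e.1 e.2 u (vd e) R hu h2 (hvd e he).2 hR hord
    have hqP : q ∈ P := by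
      rw [hq1] at h1
      unfold crit at h1
      rw [Finset.mem_insert, Finset.mem_insert, Finset.mem_image] at h1
      rcases h1 with h1 | h1 | ⟨c, hc, h1⟩
      · exact absurd h1 (by simp)
      · exact absurd (Option.some.inj h1) hq0
      · rw [← Option.some.inj h1]
        exact hc
    rw [Finset.mem_image]
    exact ⟨q, hqP, FIC_ext (by rw [hπ q hqP, hord, FIC_pad hq3])⟩
  -- the sets
  set DS := D.filter fun e => vd e ∈ S with hDS
  set DN := D.filter fun e => ¬ vd e ∈ S with hDN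
  set QS := Q.filter fun R => vP R ∈ S with hQS
  set QN := Q.filter fun R => ¬ vP R ∈ S with hQN
  set PS := P.filter fun c => π c ∈ S with hPS
  set PN := P.filter fun c => ¬ π c ∈ S with hPN
  set CD := C.filter fun v => v ∈ D.image vd with hCD
  set C1 := C.filter fun v => ¬ v ∈ D.image vd with hC1'
  set CQ := C1.filter fun v => ∃ R, TorusPrime R ∧ (∀ c ∈ P, ¬ Associated R (X 0 - MvPolynomial.C c)) ∧
    v.ord = padOrd R with hCQ
  set C2 := C1.filter fun v => ¬ ∃ R, TorusPrime R ∧ (∀ c ∈ P, ¬ Associated R (X 0 - MvPolynomial.C c)) ∧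
    v.ord = padOrd R with hC2
  set CP := C2.filter fun v => v ∈ P.image π with hCP
  set CE := C2.filter fun v => ¬ v ∈ P.image π with hCE
  set D1 := DS.filter fun e => ¬ vd e ∈ P.image π with hD1
  set D2 := DS.filter fun e => vd e ∈ P.image π with hD2
  have hC2C : ∀ v ∈ C2, v ∈ C ∧ ¬ v ∈ D.image vd := by
    intro v hv
    exact Finset.mem_filter.1 (Finset.mem_filter.1 hv).1
  -- the rank bound
  have hT := hRnk (k + 1) S (D1.image vd ∪ CE) (QN ∪ PN.image fun c => X 0 - MvPolynomial.C c) ρ (by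
      intro v hv
      rw [Finset.mem_coe, Finset.mem_union, Finset.mem_image] at hv
      rcases hv with ⟨e, he, rfl⟩ | hv
      · exact (Finset.mem_filter.1 (Finset.mem_filter.1 he).1).2
      · exact hCS (Finset.mem_coe.2 (hC2C v (Finset.mem_filter.1 hv).1).1)) (by
      intro v hv R hR
      rw [Finset.mem_union, Finset.mem_image] at hv
      rcases hv with ⟨e, he, rfl⟩ | hv
      · intro h
        exact (Finset.mem_filter.1 he).2
          (hdπ e (Finset.mem_filter.1 (Finset.mem_filter.1 he).1).1 R hR h)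
      · intro h
        obtain ⟨hv1, hv2⟩ := Finset.mem_filter.1 hv
        by_cases hc : ∃ c ∈ P, Associated R (X 0 - MvPolynomial.C c)
        · obtain ⟨c, hcP, hc⟩ := hc
          apply hv2
          rw [Finset.mem_image]
          exact ⟨c, hcP, FIC_ext (by rw [hπ c hcP, h, FIC_pad hc])⟩
        · push Not at hc
          exact (Finset.mem_filter.1 hv1).2 ⟨R, hR, hc, h⟩) (by
      intro R hR
      by_cases hc : ∃ c ∈ P, Associated R (X 0 - MvPolynomial.C c)
      · obtain ⟨c, hcP, hc⟩ := hc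
        by_cases hcS : π c ∈ S
        · exact Or.inl ⟨π c, hcS, by rw [hπ c hcP, FIC_pad hc]⟩
        · right
          refine ⟨X 0 - MvPolynomial.C c, ?_, hc⟩
          rw [Finset.mem_union]
          right
          exact Finset.mem_image_of_mem _ (Finset.mem_filter.2 ⟨hcP, hcS⟩)
      · push Not at hc
        obtain ⟨v, hv⟩ := (hPadV (k + 1) R hR.1).1
        by_cases hvS : v ∈ S
        · exact Or.inl ⟨v, hvS, hv⟩
        · right
          have hB : p.B v = 1 := by
            rcases hprime v (Or.inr ⟨R, hR, hc, ((hBri (k + 1) v).2.1 R hR.1).2 hv⟩) with h | h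
            · exact absurd h hvS
            · exact h
          have hex : ∃ R' ∈ Q, Associated R R' := by
            by_contra hcon
            push Not at hcon
            have := hQ3 R v hR hc hv hcon
            rw [hB] at this
            exact one_ne_zero this
          obtain ⟨R', hR', hass⟩ := hex
          refine ⟨R', ?_, hass⟩
          rw [Finset.mem_union]
          left
          rw [hQN, Finset.mem_filter]
          refine ⟨hR', ?_⟩
          have : vP R' = v := FIC_ext (by rw [hvP R' hR', hv, FIC_pad hass])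
          rw [this]
          exact hvS) hrank
  have hTcard : (D1.image vd ∪ CE).card = D1.card + CE.card := by
    rw [Finset.card_union_of_disjoint, Finset.card_image_of_injOn]
    · intro e he e' he' h
      exact hvdinj e (Finset.mem_filter.1 (Finset.mem_filter.1 (Finset.mem_coe.1 he)).1).1 e'
        (Finset.mem_filter.1 (Finset.mem_filter.1 (Finset.mem_coe.1 he')).1).1 h
    · rw [Finset.disjoint_left]
      intro v hv hv'
      obtain ⟨e, he, rfl⟩ := Finset.mem_image.1 hv
      exact (hC2C _ (Finset.mem_filter.1 hv').1).2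
        (Finset.mem_image_of_mem vd (Finset.mem_filter.1 (Finset.mem_filter.1 he).1).1)
  have hQcard : (QN ∪ PN.image fun c => (X 0 - MvPolynomial.C c : Pn (k + 1))).card ≤
      QN.card + PN.card :=
    (Finset.card_union_le _ _).trans (Nat.add_le_add_left Finset.card_image_le _)
  -- the critical part
  have hcrit : CP.card + D2.card ≤ PS.card := by
    have h1 : (CP ∪ D2.image vd).card = CP.card + D2.card := by
      rw [Finset.card_union_of_disjoint, Finset.card_image_of_injOn]
      · intro e he e' he' h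
        exact hvdinj e (Finset.mem_filter.1 (Finset.mem_filter.1 (Finset.mem_coe.1 he)).1).1 e'
          (Finset.mem_filter.1 (Finset.mem_filter.1 (Finset.mem_coe.1 he')).1).1 h
      · rw [Finset.disjoint_left]
        intro v hv hv'
        obtain ⟨e, he, rfl⟩ := Finset.mem_image.1 hv'
        exact (hC2C _ (Finset.mem_filter.1 hv).1).2
          (Finset.mem_image_of_mem vd (Finset.mem_filter.1 (Finset.mem_filter.1 he).1).1)
    rw [← h1]
    refine (Finset.card_le_card (t := PS.image π) ?_).trans Finset.card_image_le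
    intro v hv
    rw [Finset.mem_union] at hv
    rcases hv with hv | hv
    · obtain ⟨hv1, hv2⟩ := Finset.mem_filter.1 hv
      obtain ⟨c, hc, rfl⟩ := Finset.mem_image.1 hv2
      exact Finset.mem_image_of_mem π
        (Finset.mem_filter.2 ⟨hc, hCS (Finset.mem_coe.2 (hC2C _ hv1).1)⟩)
    · obtain ⟨e, he, rfl⟩ := Finset.mem_image.1 hv
      obtain ⟨he1, he2⟩ := Finset.mem_filter.1 he
      obtain ⟨c, hc, hce⟩ := Finset.mem_image.1 he2
      rw [← hce]
      refine Finset.mem_image_of_mem π (Finset.mem_filter.2 ⟨hc, ?_⟩)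
      rw [hce]
      exact (Finset.mem_filter.1 he1).2
  -- the sum over C
  have hsplit : ∑ v ∈ C, p.B v = ∑ v ∈ CD, p.B v + (∑ v ∈ CQ, p.B v +
      (∑ v ∈ CP, p.B v + ∑ v ∈ CE, p.B v)) := by
    rw [← Finset.sum_filter_add_sum_filter_not C (fun v => v ∈ D.image vd)]
    congr 1
    rw [← Finset.sum_filter_add_sum_filter_not C1 (fun v => ∃ R, TorusPrime R ∧
      (∀ c ∈ P, ¬ Associated R (X 0 - MvPolynomial.C c)) ∧ v.ord = padOrd R)]
    congr 1
    rw [← Finset.sum_filter_add_sum_filter_not C2 (fun v => v ∈ P.image π)]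
  have hD3 : ∑ v ∈ CD, p.B v ≤ ∑ e ∈ DS, p.B (vd e) := by
    have h1 : ∑ e ∈ DS, p.B (vd e) = ∑ v ∈ DS.image vd, p.B v := by
      rw [Finset.sum_image]
      intro e he e' he' h
      exact hvdinj e (Finset.mem_filter.1 (Finset.mem_coe.1 he)).1 e'
        (Finset.mem_filter.1 (Finset.mem_coe.1 he')).1 h
    rw [h1]
    apply Finset.sum_le_sum_of_subset_of_nonneg
    · intro v hv
      obtain ⟨hvC, hvR⟩ := Finset.mem_filter.1 hv
      obtain ⟨e, he, rfl⟩ := Finset.mem_image.1 hvR
      exact Finset.mem_image_of_mem vd (Finset.mem_filter.2 ⟨he, hCS (Finset.mem_coe.2 hvC)⟩)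
    · intro v hv _
      obtain ⟨e, he, rfl⟩ := Finset.mem_image.1 hv
      exact hp.effective _ (Finset.mem_filter.1 he).2
  have hQ4 : ∑ v ∈ CQ, p.B v ≤ ∑ R ∈ QS, p.B (vP R) := by
    have h1 : ∑ R ∈ QS, p.B (vP R) = ∑ v ∈ QS.image vP, p.B v := by
      rw [Finset.sum_image]
      intro R hR R' hR' h
      exact hvPinj R (Finset.mem_filter.1 (Finset.mem_coe.1 hR)).1 R'
        (Finset.mem_filter.1 (Finset.mem_coe.1 hR')).1 h
    rw [h1]
    have h2 : ∑ v ∈ CQ, p.B v = ∑ v ∈ CQ.filter (fun v => v ∈ QS.image vP), p.B v := by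
      rw [← Finset.sum_filter_add_sum_filter_not CQ (fun v => v ∈ QS.image vP)]
      rw [Finset.sum_eq_zero (s := CQ.filter fun v => ¬ v ∈ QS.image vP), add_zero]
      intro v hv
      obtain ⟨hvT, hvQ⟩ := Finset.mem_filter.1 hv
      obtain ⟨hvC, R, hR, hRc, hvo⟩ := Finset.mem_filter.1 hvT
      apply hQ3 R v hR hRc hvo
      intro R' hR' hass
      apply hvQ
      have h3 : vP R' = v := FIC_ext (by rw [hvP R' hR', hvo, FIC_pad hass])
      rw [Finset.mem_image]
      exact ⟨R', Finset.mem_filter.2 ⟨hR', by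
        rw [h3]; exact hCS (Finset.mem_coe.2 (Finset.mem_filter.1 hvC).1)⟩, h3⟩
    rw [h2]
    apply Finset.sum_le_sum_of_subset_of_nonneg
    · intro v hv
      exact (Finset.mem_filter.1 hv).2
    · intro v hv _
      obtain ⟨R, hR, rfl⟩ := Finset.mem_image.1 hv
      exact hp.effective _ (Finset.mem_filter.1 hR).2
  have hP1 : ∑ v ∈ CP, p.B v ≤ (CP.card : ℝ) := by
    calc ∑ v ∈ CP, p.B v ≤ ∑ _v ∈ CP, (1 : ℝ) := Finset.sum_le_sum fun v _ => hp.glc v
      _ = (CP.card : ℝ) := by simp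
  have hE1 : ∑ v ∈ CE, p.B v ≤ (CE.card : ℝ) := by
    calc ∑ v ∈ CE, p.B v ≤ ∑ _v ∈ CE, (1 : ℝ) := Finset.sum_le_sum fun v _ => hp.glc v
      _ = (CE.card : ℝ) := by simp
  -- the sums over D and Q
  have hDsum : ∑ e ∈ D, p.B (vd e) = ∑ e ∈ DS, p.B (vd e) + (DN.card : ℝ) := by
    rw [← Finset.sum_filter_add_sum_filter_not D (fun e => vd e ∈ S)]
    congr 1
    rw [Finset.sum_congr rfl (g := fun _ => (1 : ℝ))]
    · simp [hDN]
    · intro e he
      obtain ⟨heD, heS⟩ := Finset.mem_filter.1 he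
      exact (hdS e heD).resolve_left heS
  have hQsum : ∑ R ∈ Q, p.B (vP R) = ∑ R ∈ QS, p.B (vP R) + (QN.card : ℝ) := by
    rw [← Finset.sum_filter_add_sum_filter_not Q (fun R => vP R ∈ S)]
    congr 1
    rw [Finset.sum_congr rfl (g := fun _ => (1 : ℝ))]
    · simp [hQN]
    · intro R hR
      obtain ⟨hRQ, hRS'⟩ := Finset.mem_filter.1 hR
      exact (hRS R hRQ).resolve_left hRS'
  have hDcard : (D.card : ℝ) = DS.card + DN.card := by
    have h := Finset.card_filter_add_card_filter_not (s := D) (fun e => vd e ∈ S)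
    rw [← h]
    push_cast
    rfl
  have hDScard : (DS.card : ℝ) = D2.card + D1.card := by
    have h := Finset.card_filter_add_card_filter_not (s := DS) (fun e => vd e ∈ P.image π)
    rw [← h]
    push_cast
    rfl
  have hPcard : (P.card : ℝ) = PS.card + PN.card := by
    have h := Finset.card_filter_add_card_filter_not (s := P) (fun c => π c ∈ S)
    rw [← h]
    push_cast
    rfl
  have hTr : (D1.card : ℝ) + CE.card ≤ ((k + 1 : ℕ) : ℝ) + (QN.card + PN.card) + ρ := by
    rw [hTcard] at hT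
    have : D1.card + CE.card ≤ (k + 1) + (QN.card + PN.card) + ρ := by omega
    exact_mod_cast this
  have hcritR : (CP.card : ℝ) + D2.card ≤ PS.card := by exact_mod_cast hcrit
  rw [hDsum, hQsum] at hineq
  linarith

end Pool.Agent.Helper83.CO
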